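import Pool.Agent.Results.MP_cd906c_nt.MultiquadraticX49
import Pool.Agent.N869.QP.Fin

/-!
# Birch and Swinnerton-Dyer over number fields: pairs of a curve and a field, almost all conductors

Let `K = ℚ(√-7)` and let `E_D` be the quadratic twist by `D` of the curve
`y² + x y = x³ - x² - 2 x - 1` of conductor `49`, and let `n ≥ 2`. Let `𝔣` be a squarefree ideal of `K`
prime to `14`. We consider the finite set of the pairs `(E_D, L)`, `L = K(√d_1, …, √d_n)`, of total
conductor `𝔣`: `D, d_1, …, d_n` are squarefree integers of `K` congruent to `1` modulo `4` and prime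
to `√-7`, the `d_i` are independent modulo squares, `D` is prime to the `d_i`, and the prime divisors of
`𝔣` are the primes that divide `D` or some `d_i`. For almost every fixed `𝔣` (ordered by the norm) and every
set `𝒯` of subsets `T` of `{1, …, n}`, the proportion of the pairs of total conductor `𝔣` for which, for
all `T` in `𝒯`, the twist over `K` by `D ∏_{i ∈ T} d_i` has finitely many points and no element of order
two in the Tate-Shafarevich group, is as close as we like to `c2 ^ #𝒯`, where
`c2 = ∏_{i ≥ 1} (1 - 2^(-i)) = 0.288...`. If `𝒯` is the set of all `2 ^ n` subsets, then for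
these pairs the group `E_D(L)` is finite, the `L`-series of `E_D` over `L` has a meromorphic continuation
and does not vanish at `s = 1`, and the 2-primary part of `Ш(E_D/L)` is finite and killed by `2 ^ n`.

So the statement holds for single conductors, without an average over them: the primes that divide the
discriminants of the curve and of the field are given, only their distribution over the curve and the
field is random.

Proof. `MP_cd906c_nt/MultiquadraticX49` reduces the statement on `L` to the twists over `K`, and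
`MP_e996df_nt/TwoPartTwistsX49` reduces these to the kernels of matrices of quadratic symbols. A pair of
total conductor `𝔣` is a colouring of the prime divisors of `𝔣` by the subsets of `{1, …, n}`. The
proportion of the good colourings of `𝔣` is a random variable in `𝔣`; its first and second moments are the
averages over all `𝔣` and all (pairs of) colourings of the joint event for a family of systems of colours.
For a fixed random colouring of all primes of `K` the joint moments of the kernels of the
matrices are computed by the large sieve for the quadratic symbols over `K` in boxes of large primes, and by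
an exact count of the labellings (`Pool/Agent/N869/QT`, `Pool/Agent/N869/QP`).
-/

set_option autoImplicit false

namespace Pool.Agent.Results.MP_9ab903_nt.AlmostAllPairs

open NumberField IsDedekindDomain
open Pool.Agent.Results.MP_cd906c_nt.MultiquadraticX49 (curve InClass NoSelmer AllNoSelmer
  OverExtensions Independent c2)

/-- The conductors of norm at most `X`: the squarefree ideals of `𝓞 K` prime to `14`. -/
def conductors (K : Type) [Field K] [NumberField K] (X : ℕ) : Set (Ideal (𝓞 K)) :=
  {𝔣 | Squarefree 𝔣 ∧ IsCoprime 𝔣 (Ideal.span {14}) ∧ Ideal.absNorm 𝔣 ≤ X}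

/-- The pairs `(D, d)` of total conductor `𝔣`: `D` and the `d i` are squarefree, congruent to
`1` modulo `4` and prime to `√-7`, no nonempty product of some of the `d i` is a square in `K`, `D` is
prime to the `d i`, and a prime ideal divides `𝔣` if and only if it divides `D` or some `d i`. -/
def pairs {K : Type} [Field K] [NumberField K] (a : 𝓞 K) (n : ℕ) (𝔣 : Ideal (𝓞 K)) :
    Set (𝓞 K × (Fin n → 𝓞 K)) :=
  {x | InClass a x.1 ∧ (∀ i, InClass a (x.2 i)) ∧ Independent x.2 ∧
    (∀ i, IsCoprime x.1 (x.2 i)) ∧
    ∀ v : HeightOneSpectrum (𝓞 K), 𝔣 ≤ v.asIdeal ↔ x.1 ∈ v.asIdeal ∨ ∃ i, x.2 i ∈ v.asIdeal}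

/-- `NoSelmer` (that is, `E_N(K)` is finite and `Ш(E_N/K)` has no element of order two) for the twists by
the products of `D` and the `d i`, `i ∈ T`, for the sets `T` in `𝒯`. -/
def Good {K : Type} [Field K] [NumberField K] (a : 𝓞 K) {n : ℕ} (𝒯 : Finset (Finset (Fin n)))
    (x : 𝓞 K × (Fin n → 𝓞 K)) : Prop :=
  ∀ T ∈ 𝒯, ∀ N c : 𝓞 K, InClass a N → c ≠ 0 → x.1 * ∏ i ∈ T, x.2 i = N * c ^ 2 →
    NoSelmer (curve (N : K))

/-- There are pairs of total conductor `𝔣`, finitely many, and the proportion of those that are good for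
the sets in `𝒯` differs from `p` by at most `δ`. -/
def Close {K : Type} [Field K] [NumberField K] (a : 𝓞 K) {n : ℕ} (𝒯 : Finset (Finset (Fin n)))
    (p δ : ℝ) (𝔣 : Ideal (𝓞 K)) : Prop :=
  (pairs a n 𝔣).Finite ∧ 0 < (pairs a n 𝔣).ncard ∧
    |({x ∈ pairs a n 𝔣 | Good a 𝒯 x}.ncard : ℝ) / ((pairs a n 𝔣).ncard : ℝ) - p| ≤ δ

section proof

open Filter
open Pool.Agent.N869

variable {K : Type} [Field K] [NumberField K]

lemma good_iff {a : 𝓞 K} (ha : a ^ 2 = a - 2) (hK : Module.finrank ℚ K = 2) {n : ℕ}
    (𝒯 : Finset (Finset (Fin n))) (x : 𝓞 K × (Fin n → 𝓞 K)) :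
    Good a 𝒯 x ↔ QP.TRKP.goPK a 𝒯 x :=
  forall_congr' fun _ => forall_congr' fun _ => forall_congr' fun _ => forall_congr' fun _ =>
    forall_congr' fun hN => forall_congr' fun _ => forall_congr' fun _ =>
      (MP_cd906c_nt.MultiquadraticX49.twoPart_iff ha hK hN).symm

end proof

/-- **Main theorem.** Let `K = ℚ(√-7)`, that is, a number field of degree two with an integer `a` such
that `a² = a - 2`, and let `n ≥ 2`.
(1) If a pair `(D, d)` of total conductor `𝔣` is good for all the subsets of `{1, …, n}` (a condition on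
the side of algebra only, on the twists over `K`), then for `L = K(√d_1, …, √d_n)`, of degree `2 ^ n`
over `K`: the group `E_D(L)` is finite, the rank conjecture holds for `E_D` over `L`, a product of
`L(E_D/L, s)` and finitely many Euler polynomials is entire and not zero at `1`, and the 2-primary part
of `Ш(E_D/L)` is finite and killed by `2 ^ n`.
(2) For every set `𝒯` of subsets of `{1, …, n}` and every `δ > 0`, for almost all conductors `𝔣`,
ordered by the norm, the proportion of the pairs of total conductor `𝔣` that are good for `𝒯` differs from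
`c2 ^ #𝒯` by at most `δ`, where `0.288 < c2 < 0.289`. In particular this holds with the exponent `2 ^ n`
for the condition in (1). There are at least `c X` conductors of norm at most `X`. -/
theorem result (K : Type) [Field K] [NumberField K] (a : 𝓞 K) (ha : a ^ 2 = a - 2)
    (hK : Module.finrank ℚ K = 2) (n : ℕ) (hn : 2 ≤ n) :
    (∀ (𝔣 : Ideal (𝓞 K)), ∀ x ∈ pairs a n 𝔣, Good a Finset.univ x → OverExtensions x.2 x.1) ∧
    (∀ 𝒯 : Finset (Finset (Fin n)), ∀ δ : ℝ, 0 < δ →
      Filter.Tendsto (fun X : ℕ =>
        ({𝔣 ∈ conductors K X | Close a 𝒯 (c2 ^ 𝒯.card) δ 𝔣}.ncard : ℝ) /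
          ((conductors K X).ncard : ℝ)) Filter.atTop (nhds 1)) ∧
    (Finset.univ : Finset (Finset (Fin n))).card = 2 ^ n ∧
    0.288 < c2 ∧ c2 < 0.289 ∧
    ∃ c : ℝ, 0 < c ∧ ∀ᶠ X : ℕ in Filter.atTop, c * X ≤ ((conductors K X).ncard : ℝ) := by
  obtain ⟨-, -, -, h3, h4⟩ := Pool.Agent.R426.QK.MOM.t_C2
  refine ⟨fun 𝔣 x hx hg => ?_, fun 𝒯 δ hδ => ?_, ?_, h3, h4, ?_⟩
  · obtain ⟨h5, h6, h7, h8, -⟩ := hx
    exact MP_cd906c_nt.MultiquadraticX49.extension ha hK x.2 h6 h7 h5 h8
      fun T N c hN hc hT => hg T (Finset.mem_univ _) N c hN hc hT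
  · have h := Pool.Agent.N869.QP.TRKP.mainQ Pool.Agent.N869.QP.t_FINPQ Pool.Agent.N869.QT.t_LOWA ha
      hK hn 𝒯 hδ
    refine h.congr fun X => ?_
    have e : {𝔣 ∈ conductors K X | Close a 𝒯 (c2 ^ 𝒯.card) δ 𝔣} =
        {𝔣 ∈ Pool.Agent.N869.QT.TRK.condK K X | (Pool.Agent.N869.QP.TRKP.pairK a n 𝔣).Finite ∧
          0 < (Pool.Agent.N869.QP.TRKP.pairK a n 𝔣).ncard ∧
          |({x ∈ Pool.Agent.N869.QP.TRKP.pairK a n 𝔣 |
              Pool.Agent.N869.QP.TRKP.goPK a 𝒯 x}.ncard : ℝ) /
            ((Pool.Agent.N869.QP.TRKP.pairK a n 𝔣).ncard : ℝ) -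
              Pool.Agent.R426.QK.c2 ^ 𝒯.card| ≤ δ} := by
      ext 𝔣
      refine and_congr Iff.rfl ?_
      unfold Close
      simp only [good_iff ha hK]
      exact Iff.rfl
    rw [e]
    rfl
  · rw [Finset.card_univ, Fintype.card_finset, Fintype.card_fin]
  · exact Pool.Agent.N869.QT.TRK.cond_low Pool.Agent.N869.QT.t_LOWA ha hK

end Pool.Agent.Results.MP_9ab903_nt.AlmostAllPairs
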