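import Pool.Agent.N873.Asm
import Pool.Agent.N873.Few
import Pool.Agent.Results.MP_e996df_nt.TwoPartTwistsX49

/-!
# The 2-part of the strong conjecture of Birch and Swinnerton-Dyer for `X_0(49)` over the quadratic
# extensions of `ℚ(√-7)`: exact criterion, Tate-Shafarevich groups of exact order `4 ^ (t - g)`, and
# exact proportion

`K` is a number field of degree two with an integer `a` such that `a² = a - 2` (so `K = ℚ(√-7)` and
`√-7 = 2 a - 1`), `D ≠ 1` is any squarefree integer of `K` that is congruent to `1` modulo `4` and prime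
to `√-7`, and `L = K(√D)`. These are the quadratic extensions of `K` that are unramified at `2` and at
`√-7`, each for exactly one `D`; their discriminant is `49 N(D)` up to sign, and almost all of them are
not Galois over `ℚ`. `E` is the curve `y² + x y = x³ - x² - 2 x - 1` of conductor `49` over `L`. Let `S`
be the set of the prime divisors `p ≡ 1` modulo `a²` of `D`, so that `D = ∏ p` (`p ∈ S`), let `t = #S` be
the number of the places of `K` that divide `D` (those that ramify in `L`), let `g` be the number of the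
places of `L` above `7`, and let
`z = L(E/L, 1) √|disc L| #E(L)_tors² / (∏ Ω_v ∏ c_v)`, which is zero or the order of `Ш(E/L)` according
to the conjecture. With no hypothesis on the rank or on `Ш` we prove:
* `L(E/L, s) = L(E/K, s) L(E_D/K, s)` is entire, the equation of `E` is minimal at all the finite places
  of `L`, `∏ c_v = 4 ^ g`, `g` is two if `D` is a square modulo `√-7` and one if not, and the order of the
  torsion subgroup is four times an odd number;
* at all the valuations `w` of `ℂ` above two, `4 ^ g z` is divisible by `4 ^ t`, and the quotient is a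
  unit at one of them iff it is so at all of them iff the matrix `mat a S` over `𝔽₂` of the quadratic
  residue symbols is not singular;
* in this case `g ≤ t`, the group `E(L)` is finite, the 2-primary part of `Ш(E/L)` is killed by `2` and
  has exactly `4 ^ (t - g)` elements, `L(E/L, 1) ≠ 0`, and `w z = w (#Ш(E/L)[2^∞])` for all `w` above
  two: the 2-part of the strong conjecture holds for `E` over `L`;
* this is the case for a proportion of exactly `c2 = ∏_{i ≥ 1} (1 - 2^(-i)) = 0.288...` of the `L`,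
  ordered by the discriminant, for every `B` even with a 2-primary part of `Ш(E/L)` of at least `B`
  elements, and for at least `δ X` of the `D` of norm at most `X`, for a constant `δ > 0`.

So `Ш(E/L)[2]` is large for almost all of these `L`. Its order is computed from both sides of the formula
without using the invariance of the conjecture under isogenies of abelian varieties (restriction of
scalars): from the analytic side by the central values of the twists (`MP_e996df_nt.TwoPartTwistsX49`),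
by the discriminant, the Tamagawa numbers, the torsion and the periods over `L`; and from the algebraic
side by a descent over `L`. The latter is in `Pool/Agent/N873`: the corestriction and restriction of the
classes of order two between `L` and `K` and the twist (`QE`, `QF`, `Tw`, `Sq7`, `Cb`), an upper bound of
the group of the everywhere locally trivial classes over `L` by the classes over `K` that are locally
trivial outside of the places dividing `D` (`Up`, `Shs`, `ShU`), a lower bound by the construction of such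
classes (`Low`, `ClsL`, `Inj`, `ShL`), the exact order and the fact that there are no classes of order four
(`ShE`), the places, the minimality and the Tamagawa numbers over `L` (`Lw`, `Tam`, `Tml`), the Euler
factors over `L` (`Ls`, `Lt`), the discriminant of `L` (`Disc`), and the number of the `D` with few prime
divisors (`Few`).

The period `Ω_v` at a complex place is the integral of `|ω ∧ ω̄|` with `|dz ∧ dz̄| = 2 dx dy`, that is twice
the area of a fundamental parallelogram of the lattice of periods (twice the integral for the measure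
`dx dy`).
-/

set_option autoImplicit false

namespace Pool.Agent.Results.MP_9ab903_nt.TwoPartX49Quadratic

open NumberField IsDedekindDomain
open Pool.Agent.TH841.NF.D (Sha)
open Pool.Agent.Results.MP_e996df_nt.TwoPartTwistsX49 (curve IsTamagawa IsPeriodLattice period
  torsOrder IsL mat family c2)

/-- The curve `X_0(49) : y² + x y = x³ - x² - 2 x - 1`, over the field `F`. -/
def X49 (F : Type) [Field F] : WeierstrassCurve F := ⟨1, -1, 0, -2, -1⟩

/-- The order of `Ш(E/F)` predicted by the formula in rank zero, for a totally complex number field `F`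
and the value `l` of the `L`-function at `s = 1`: `l √|disc F| #E(F)_tors² / (∏ Ω_v ∏ c_v)`, where `Ω_v`
is twice the area of a fundamental parallelogram of the lattice `Λ v` of the periods at the infinite
place `v`. -/
noncomputable def anOrder {F : Type} [Field F] [NumberField F] (E : WeierstrassCurve F) (l : ℂ)
    (Λ : InfinitePlace F → PeriodPair) (c : HeightOneSpectrum (𝓞 F) → ℕ) : ℂ :=
  l * (Real.sqrt |(discr F : ℝ)| : ℝ) * (torsOrder E : ℂ) ^ 2 /
    ((∏ v : InfinitePlace F, (period (Λ v) : ℂ)) * ((∏ᶠ v, c v : ℕ) : ℂ))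

/-- `Λ v` is the lattice of the periods of `E` at the infinite place `v`, for all `v`. -/
def IsPeriods {F : Type} [Field F] [NumberField F] (E : WeierstrassCurve F)
    (Λ : InfinitePlace F → PeriodPair) : Prop :=
  ∀ v : InfinitePlace F, IsPeriodLattice E v.embedding (Λ v)

/-- The order of the 2-primary part of `Ш(E/F)` (zero if it is infinite). -/
noncomputable def shaTwo {F : Type} [Field F] [NumberField F] (E : WeierstrassCurve F) : ℕ :=
  Nat.card {x : Sha E // ∃ n : ℕ, 2 ^ n • x = 0}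

/-- The 2-part of the strong conjecture of Birch and Swinnerton-Dyer for a curve `E` of rank zero over a
totally complex number field `F`: `E(F)` and the 2-primary part of `Ш(E/F)` are finite, `L(E/F, s)` is
entire, `L(E/F, 1) ≠ 0`, and the predicted order of `Ш(E/F)` and the order of its 2-primary part have the
same valuation at every valuation `w` of the field of complex numbers with `w 2 < 1`. -/
def TwoPart {F : Type} [Field F] [NumberField F] (E : WeierstrassCurve F) : Prop :=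
  IsTotallyComplex F ∧ Finite E.toAffine.Point ∧
  Finite {x : Sha E // ∃ n : ℕ, 2 ^ n • x = 0} ∧
  ∃ (L : ℂ → ℂ) (c : HeightOneSpectrum (𝓞 F) → ℕ), IsL E L ∧ L 1 ≠ 0 ∧ IsTamagawa E c ∧
    (∃ Λ : InfinitePlace F → PeriodPair, IsPeriods E Λ) ∧
      ∀ Λ : InfinitePlace F → PeriodPair, IsPeriods E Λ →
        ∀ (Γ : Type) [LinearOrderedCommGroupWithZero Γ] (w : Valuation ℂ Γ), w 2 < 1 →
          w (anOrder E (L 1) Λ c) = w (shaTwo E : ℂ)

/-- The number of the finite places `v` of `F` that divide `x`. -/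
noncomputable def nPlaces {F : Type} [Field F] [NumberField F] (x : 𝓞 F) : ℕ :=
  Nat.card {v : HeightOneSpectrum (𝓞 F) // x ∈ v.asIdeal}

/-- The 2-part of the conjecture holds for `X_0(49)` over `L`, and the order of the 2-primary part of `Ш`
is `4 ^ (t - g)`, where `t` is the number of the places of `K` that divide `D` and `g` is the number of
the places of `L` above `7`. -/
def Exact {K : Type} [Field K] [NumberField K] (D : 𝓞 K) (L : Type) [Field L] [NumberField L] : Prop :=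
  TwoPart (X49 L) ∧ nPlaces (7 : 𝓞 L) ≤ nPlaces D ∧
    shaTwo (X49 L) = 4 ^ (nPlaces D - nPlaces (7 : 𝓞 L))

/-- The elements `D ≠ 1` of the family such that, for the quadratic extension `L = K(√D)`, the statement
`Exact` holds and the 2-primary part of `Ш` has at least `B` elements. -/
def goodSet {K : Type} [Field K] [NumberField K] (a : 𝓞 K) (B X : ℕ) : Set (𝓞 K) :=
  {D ∈ family a X | D ≠ 1 ∧ ∀ (L : Type) [Field L] [NumberField L] [Algebra K L],
    Module.finrank K L = 2 → (∃ x : L, x ^ 2 = algebraMap K L (D : K)) →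
      Exact D L ∧ B ≤ shaTwo (X49 L)}

open scoped Classical in
/-- The statement for the quadratic extension `L = K(√D)` of `K`, where `S` is the set of the prime
divisors `p ≡ 1` modulo `a²` of `D`; `g` is the number of the places of `L` above `7`. -/
def Criterion {K : Type} [Field K] [NumberField K] (a D : 𝓞 K) (S : Finset (𝓞 K)) (L : Type)
    [Field L] [NumberField L] (g : ℕ) : Prop :=
  (discr L).natAbs = 49 * Ideal.absNorm (Ideal.span {D}) ∧ S.card = nPlaces D ∧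
  ((g = 2 ∧ ∃ b : 𝓞 K, 2 * a - 1 ∣ b ^ 2 - D) ∨ (g = 1 ∧ ¬ ∃ b : 𝓞 K, 2 * a - 1 ∣ b ^ 2 - D)) ∧
  (∃ (F : ℂ → ℂ) (c : HeightOneSpectrum (𝓞 L) → ℕ), IsL (X49 L) F ∧
    (∀ s : ℂ, 3 / 2 < s.re → F s = (X49 K).LSeries s * (curve (D : K)).LSeries s) ∧
    IsTamagawa (X49 L) c ∧ ∏ᶠ v, c v = 4 ^ g ∧ (∃ t : ℕ, Odd t ∧ torsOrder (X49 L) = 4 * t) ∧
    (∃ Λ : InfinitePlace L → PeriodPair, IsPeriods (X49 L) Λ) ∧
    ∀ Λ : InfinitePlace L → PeriodPair, IsPeriods (X49 L) Λ →
      ∀ (Γ : Type) [LinearOrderedCommGroupWithZero Γ] (w : Valuation ℂ Γ), w 2 < 1 →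
        w (4 ^ g * anOrder (X49 L) (F 1) Λ c) ≤ w (4 ^ S.card) ∧
          (w (4 ^ g * anOrder (X49 L) (F 1) Λ c) = w (4 ^ S.card) ↔ (mat a S).det ≠ 0)) ∧
  ((mat a S).det ≠ 0 → g ≤ S.card ∧ TwoPart (X49 L) ∧ shaTwo (X49 L) = 4 ^ (S.card - g) ∧
    ∀ (n : ℕ) (x : Sha (X49 L)), 2 ^ n • x = 0 → 2 • x = 0)

section proof

open Pool.Agent.R426
open Pool.Agent.R426.QC
open Pool.Agent.Y698 Pool.Agent.Y698.SG
open Pool.Agent.N873
open Pool.Agent.Results.MP_e996df_nt.TwoPartTwistsX49 (criterion exists_e EX_c₆ NoSelmer)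

lemma X49_EX (F : Type) [Field F] : X49 F = EX F 0 := by
  unfold X49 EX
  congr 1 <;> ring

lemma curve_EX {F : Type} [Field F] [CharZero F] (j : F) : curve (1 + 4 * j) = EX F j := by
  unfold curve EX
  congr 1
  field_simp
  ring

/-- the periods -/
lemma per_all {F : Type} [Field F] [CharZero F] (σ : F →+* ℂ) {D j : F} (hD : D = 1 + 4 * j)
    (Λ : PeriodPair) : IsPeriodLattice (EX F j) σ Λ ↔ Λ.g₂ = 35 / 4 * (σ D) ^ 2 ∧
      Λ.g₃ = 49 / 8 * (σ D) ^ 3 := by
  unfold IsPeriodLattice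
  rw [EX_c₄, EX_c₆, ← hD]
  simp only [map_mul, map_pow, map_ofNat]
  have e1 : (105 : ℂ) * (σ D) ^ 2 / 12 = 35 / 4 * (σ D) ^ 2 := by ring
  have e2 : (1323 : ℂ) * (σ D) ^ 3 / 216 = 49 / 8 * (σ D) ^ 3 := by ring
  rw [e1, e2]


/-- the constant of the periods -/
lemma exists_per : ∃ A : ℝ, 0 < A ∧ ∀ {δ : ℂ}, δ ≠ 0 → ∀ {Λ : PeriodPair}, Λ.g₂ = 35 / 4 * δ ^ 2 →
    Λ.g₃ = 49 / 8 * δ ^ 3 → period Λ = A / ‖δ‖ := by
  obtain ⟨L, Ω, h⟩ := exists_LD
  refine ⟨Real.sqrt 7 * Complex.normSq Ω, ?_, fun hδ Λ h2 h3 => per7 h hδ h2 h3⟩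
  exact mul_pos (Real.sqrt_pos.2 (by norm_num)) (Complex.normSq_pos.2 h.lat.ne)

/-- the identity -/
lemma z_ident {l₁ l₂ : ℂ} {A N : ℝ} (hA : 0 < A) (hN : 0 < N) (t₁ t₂ t₃ : ℕ) (g k : ℕ) :
    (4 : ℂ) ^ g * ((l₁ * l₂) * ((7 * N : ℝ) : ℂ) * (((4 * t₃ : ℕ) : ℂ)) ^ 2 /
      ((((A : ℝ) : ℂ) ^ 2) * ((4 ^ g : ℕ) : ℂ))) * ((t₁ : ℂ) * t₂) ^ 2 =
    (l₁ * ((Real.sqrt 7 : ℝ) : ℂ) * (((4 * t₁ : ℕ) : ℂ)) ^ 2 / (((A : ℝ) : ℂ) * ((4 ^ (0 + 1) : ℕ) : ℂ))) *
    (l₂ * ((Real.sqrt 7 : ℝ) : ℂ) * (((4 * t₂ : ℕ) : ℂ)) ^ 2 /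
      (((A / N : ℝ) : ℂ) * ((4 ^ (k + 1) : ℕ) : ℂ))) * 4 ^ k * (t₃ : ℂ) ^ 2 := by
  have h7 : ((Real.sqrt 7 : ℝ) : ℂ) ^ 2 = 7 := by
    rw [← Complex.ofReal_pow, Real.sq_sqrt (by norm_num)]
    norm_num
  have hA' : ((A : ℝ) : ℂ) ≠ 0 := Complex.ofReal_ne_zero.2 hA.ne'
  have hN' : ((N : ℝ) : ℂ) ≠ 0 := Complex.ofReal_ne_zero.2 hN.ne'
  push_cast
  field_simp
  rw [h7]
  ring


lemma sum_nb {ι : Type} {I : Finset ι} {π : ι → RR} (hS : QD.Ev I π) :
    ∑ i ∈ I, lg (e7 (QD.nb (π i))) = ∑ i ∈ I, lg (e7 (π i)) := by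
  have h6 : ∀ i ∈ I, lg (e7 (QD.nb (π i))) = QD.tp (π i) + lg (e7 (π i)) := fun i hi =>
    QD.lg_e7_nb (hS.c7 i hi).1
  rw [Finset.sum_congr rfl h6, Finset.sum_add_distrib, hS.tp, zero_add]

/-- the sum of the symbols at `√-7` -/
lemma gn_eq {K : Type} [Field K] [NumberField K] (e : RR ≃+* 𝓞 K) {ι : Type} [DecidableEq ι]
    {I : Finset ι} {π : ι → RR} (hS : QD.Ev I π) {J : RR} (hJ : ∏ i ∈ I, π i = 1 + 4 * J) :
    (if ∑ i ∈ I, lg (e7 (π i)) = 0 then 2 else 1) = gn e J := by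
  classical
  unfold gn
  have h1 := spl7 e hS.bnb (J := J) (by rw [QD.prod_nb' hS]; exact hJ)
  rw [sum_nb hS] at h1
  by_cases h : ∑ i ∈ I, lg (e7 (π i)) = 0
  · rw [if_pos h, if_pos (h1.1 h)]
  · rw [if_neg h, if_neg (fun h2 => h (h1.2 h2))]

/-- the valuations in the identity -/
lemma val_ident {Γ : Type} [LinearOrderedCommGroupWithZero Γ] {w : Valuation ℂ Γ} (hw : w 2 < 1)
    {X Z₁ Z₂ P : ℂ} {t₁ t₂ t₃ : ℕ} (h₁ : Odd t₁) (h₂ : Odd t₂) (h₃ : Odd t₃)
    (h : X * ((t₁ : ℂ) * t₂) ^ 2 = Z₁ * Z₂ * P * (t₃ : ℂ) ^ 2) (hZ : w Z₁ = 1) :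
    w X = w Z₂ * w P := by
  have h1 := congrArg w h
  simp only [map_mul, map_pow] at h1
  rw [val_odd hw h₁, val_odd hw h₂, val_odd hw h₃, hZ, one_pow, mul_one, mul_one, one_pow, mul_one,
    one_mul] at h1
  exact h1

section main

variable {K : Type} [Field K] [NumberField K]

/-- **The statement for one extension.** -/
theorem crit {a : 𝓞 K} (ha : a ^ 2 = a - 2) (hK : Module.finrank ℚ K = 2) {D : 𝓞 K}
    (h4 : (4 : 𝓞 K) ∣ D - 1) (hDsq : Squarefree D) (h7 : ¬ (2 * a - 1) ∣ D) (hD1 : D ≠ 1)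
    {L : Type} [Field L] [NumberField L] [Algebra K L] (hL : Module.finrank K L = 2)
    (hx : ∃ x : L, x ^ 2 = algebraMap K L (D : K)) :
    ∃ S : Finset (𝓞 K), (∀ p, p ∈ S ↔ Prime p ∧ p ∣ D ∧ a ^ 2 ∣ p - 1) ∧ ∏ p ∈ S, p = D ∧
      Criterion a D S L (nPlaces (7 : 𝓞 L)) := by
  classical
  obtain ⟨e, hea, hef⟩ := exists_e ha hK
  obtain ⟨S, hSp, hSD, hE⟩ := QD.exists_S e hea h4 hDsq h7
  obtain ⟨S', hSp', hSD', hC⟩ := criterion ha hK h4 hDsq h7
  have hSS : S' = S := by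
    ext p
    rw [hSp, hSp']
  subst hSS
  obtain ⟨S₁, hS₁p, -, hC₁⟩ := criterion ha hK (D := 1) (by rw [sub_self]; exact dvd_zero _)
    squarefree_one (fun h => by
      have h1 : fR ∣ 1 := by
        rw [← map_dvd_iff e, map_one, hef]
        exact h
      exact QC.prime_fR.not_isUnit (isUnit_of_dvd_one h1))
  have hS₁ : S₁ = ∅ := by
    rw [Finset.eq_empty_iff_forall_notMem]
    intro p hp
    obtain ⟨h1, h2, -⟩ := (hS₁p p).1 hp
    exact h1.not_isUnit (isUnit_of_dvd_one h2)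
  subst hS₁
  refine ⟨S', hSp, hSD, ?_⟩
  set S := S' with hSdef
  set π : 𝓞 K → RR := QC.pe e with hπd
  have hSne : S.Nonempty := by
    rw [Finset.nonempty_iff_ne_empty]
    intro h
    apply hD1
    rw [← hSD, h, Finset.prod_empty]
  obtain ⟨J, hJ⟩ := hE.m4
  have heD : e (∏ p ∈ S, π p) = D := by
    rw [map_prod, ← hSD]
    exact Finset.prod_congr rfl fun p _ => e.apply_symm_apply p
  have h7I := ev7 hE (Finset.Subset.refl S)
  -- the extension
  obtain ⟨x, hx⟩ := hx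
  have hint : IsIntegral ℤ x := by
    refine IsIntegral.of_pow (n := 2) two_pos ?_
    rw [hx]
    exact D.isIntegral_coe.map ((algebraMap K L).toIntAlgHom)
  set r : 𝓞 L := ⟨x, hint⟩ with hr
  have H : Qd (e (∏ p ∈ S, π p)) (e J) r := by
    refine ⟨hL, ?_, ns_of_ne e hE hSne, ?_⟩
    · rw [heD]
      apply FaithfulSMul.algebraMap_injective (𝓞 L) L
      rw [map_pow, ← alg_comm]
      exact hx
    · rw [hJ, map_add, map_mul, map_one, map_ofNat]
  have hDj : (D : K) = 1 + 4 * em e J := by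
    rw [← heD]
    show em e (∏ p ∈ S, π p) = _
    rw [hJ, map_add, map_mul, map_one, map_ofNat]
  have hcur : curve (D : K) = EX K (em e J) := by rw [hDj, curve_EX]
  have hcur1 : curve ((1 : 𝓞 K) : K) = EX K 0 := by
    rw [← curve_EX (0 : K)]
    congr 1
    rw [mul_zero, add_zero]
    exact map_one (algebraMap (𝓞 K) K)
  have hg : nPlaces (7 : 𝓞 L) = gn e J := card_seven e H h7I
  have hsq := spl_sq e hJ
  rw [heD, hef] at hsq
  rw [hcur] at hC
  rw [hcur1] at hC₁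
  obtain ⟨⟨L₂, c₂, hL₂, hT₂, hp₂, ⟨t₂, ht₂, htor₂⟩, hv₂⟩, hiff₂, -⟩ := hC
  obtain ⟨⟨L₁, c₁, hL₁, hT₁, hp₁, ⟨t₁, ht₁, htor₁⟩, hv₁⟩, hiff₁, -⟩ := hC₁
  have hns1 : NoSelmer (EX K (0 : K)) := hiff₁.2 (by
    rw [Matrix.det_isEmpty]
    exact one_ne_zero)
  have hmat : gd (mc π) (mr π) S = (mat a S).det := QD.mat_gdD e hef hE
  -- the curve over the extension
  have haL' := haL (L := L) e
  have hs := hsL (L := L) e
  obtain ⟨t₃, ht₃, htor₃⟩ := torF haL' (ns7 e H h7I _ (Or.inl hs))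
    (ns7 e H h7I _ (Or.inr (by rw [hs])))
  have htor₃' : torsOrder (EX L 0) = 4 * t₃ := htor₃
  obtain ⟨hcf, hcp⟩ := cL_prod e H h7I
  set F : ℂ → ℂ := fun s => L₁ s * L₂ s with hF
  have hIsL : IsL (EX L 0) F := by
    refine ⟨hL₁.1.mul hL₂.1, fun s hs => ?_⟩
    obtain ⟨k1, k2⟩ := lserL e hE hJ H hs
    refine ⟨k1, ?_⟩
    rw [k2, ← (hL₁.2 s hs).2, ← (hL₂.2 s hs).2]
  have hTam : IsTamagawa (EX L 0) cL := ⟨fun v => ⟨minL e H h7I v, tamL e H h7I v⟩, hcf⟩
  obtain ⟨A, hA, hper⟩ := exists_per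
  have hperL : ∀ {Λ : InfinitePlace L → PeriodPair}, IsPeriods (EX L 0) Λ →
      ∏ v : InfinitePlace L, (period (Λ v) : ℂ) = (A : ℂ) ^ 2 := by
    intro Λ hΛ
    have h1 : ∀ v : InfinitePlace L, period (Λ v) = A := by
      intro v
      have h2 := (per_all v.embedding (D := 1) (j := 0) (by ring) (Λ v)).1 (hΛ v)
      rw [map_one] at h2
      have h3 := hper one_ne_zero h2.1 h2.2
      rwa [norm_one, div_one] at h3
    rw [Finset.prod_congr rfl fun v _ => by rw [h1 v], Finset.prod_const, Finset.card_univ,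
      card_inf (K := K) e hK hL]
  have hexL : ∃ Λ : InfinitePlace L → PeriodPair, IsPeriods (EX L 0) Λ := by
    obtain ⟨Λ, h2, h3⟩ := per7_ex (δ := 1) one_ne_zero
    refine ⟨fun _ => Λ, fun v => ?_⟩
    rw [per_all v.embedding (D := 1) (j := 0) (by ring), map_one]
    exact ⟨h2, h3⟩
  have hval : ∀ Λ : InfinitePlace L → PeriodPair, IsPeriods (EX L 0) Λ →
      ∀ (Γ : Type) [LinearOrderedCommGroupWithZero Γ] (w : Valuation ℂ Γ), w 2 < 1 →
        w (4 ^ (gn e J) * anOrder (EX L 0) (F 1) Λ cL) ≤ w (4 ^ S.card) ∧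
          (w (4 ^ (gn e J) * anOrder (EX L 0) (F 1) Λ cL) = w (4 ^ S.card) ↔
            (mat a S).det ≠ 0) := by
    intro Λ hΛ Γ _ w hw
    obtain ⟨σ⟩ : Nonempty (K →+* ℂ) := inferInstance
    obtain ⟨⟨Λ₁, hΛ₁⟩, h1⟩ := hv₁ σ
    obtain ⟨⟨Λ₂, hΛ₂⟩, h2⟩ := hv₂ σ
    obtain ⟨-, k1⟩ := h1 Λ₁ hΛ₁ Γ w hw
    obtain ⟨k2, k3⟩ := h2 Λ₂ hΛ₂ Γ w hw
    have hσD : σ (D : K) ≠ 0 := (map_ne_zero σ).2 (by
      intro h0
      apply hDsq.ne_zero
      exact FaithfulSMul.algebraMap_injective (𝓞 K) K (by rw [map_zero]; exact h0))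
    have p1 : period Λ₁ = A := by
      have h5 := (per_all σ (D := 1) (j := 0) (by ring) Λ₁).1 hΛ₁
      rw [map_one] at h5
      have h3 := hper one_ne_zero h5.1 h5.2
      rwa [norm_one, div_one] at h3
    have p2 : period Λ₂ = A / ‖σ (D : K)‖ := by
      have h5 := (per_all σ hDj Λ₂).1 hΛ₂
      exact hper hσD h5.1 h5.2
    have hN : (0 : ℝ) < ‖σ (D : K)‖ := norm_pos_iff.2 hσD
    have hnorm : ‖σ (D : K)‖ = ‖((∏ p ∈ S, π p : RR) : ℂ)‖ := by
      rw [← heD]
      exact norm_em e σ _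
    have hdisc : Real.sqrt |(discr L : ℝ)| = 7 * ‖σ (D : K)‖ := by
      rw [hnorm]
      exact sqrt_disc e hE H
    have hid := z_ident (l₁ := L₁ 1) (l₂ := L₂ 1) hA hN t₁ t₂ t₃ (gn e J) S.card
    have e1 : anOrder (EX L 0) (F 1) Λ cL = (L₁ 1 * L₂ 1) * ((7 * ‖σ (D : K)‖ : ℝ) : ℂ) *
        (((4 * t₃ : ℕ) : ℂ)) ^ 2 / ((((A : ℝ) : ℂ) ^ 2) * ((4 ^ (gn e J) : ℕ) : ℂ)) := by
      unfold anOrder
      rw [hperL hΛ, hcp, htor₃', hdisc]
    have e2 : Pool.Agent.Results.MP_e996df_nt.TwoPartTwistsX49.anOrder (EX K (0 : K)) (L₁ 1) Λ₁ c₁ =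
        L₁ 1 * ((Real.sqrt 7 : ℝ) : ℂ) * (((4 * t₁ : ℕ) : ℂ)) ^ 2 /
          (((A : ℝ) : ℂ) * ((4 ^ (0 + 1) : ℕ) : ℂ)) := by
      unfold Pool.Agent.Results.MP_e996df_nt.TwoPartTwistsX49.anOrder
      rw [p1, hp₁, htor₁, sqrt_discr7 e, Finset.card_empty]
    have e3 : Pool.Agent.Results.MP_e996df_nt.TwoPartTwistsX49.anOrder (EX K (em e J)) (L₂ 1) Λ₂ c₂ =
        L₂ 1 * ((Real.sqrt 7 : ℝ) : ℂ) * (((4 * t₂ : ℕ) : ℂ)) ^ 2 /
          (((A / ‖σ (D : K)‖ : ℝ) : ℂ) * ((4 ^ (S.card + 1) : ℕ) : ℂ)) := by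
      unfold Pool.Agent.Results.MP_e996df_nt.TwoPartTwistsX49.anOrder
      rw [p2, hp₂, htor₂, sqrt_discr7 e]
    rw [← e1, ← e2, ← e3] at hid
    have hw' := val_ident hw ht₁ ht₂ ht₃ hid (k1.2 hns1)
    rw [hw', ← hiff₂, ← k3]
    have h4w : w ((4 : ℂ) ^ S.card) ≠ 0 := (Valuation.ne_zero_iff w).2 (pow_ne_zero _ (by norm_num))
    refine ⟨mul_le_of_le_one_left' k2, ?_⟩
    constructor
    · intro h5
      exact mul_eq_right₀ h4w |>.1 h5
    · intro h5
      rw [h5, one_mul]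
  have hgcase : (gn e J = 2 ∧ ∃ b : 𝓞 K, 2 * a - 1 ∣ b ^ 2 - D) ∨
      (gn e J = 1 ∧ ¬ ∃ b : 𝓞 K, 2 * a - 1 ∣ b ^ 2 - D) := by
    rw [← hsq]
    unfold gn
    by_cases h : Pool.Agent.N873.Spl (e J) (plc e QC.prime_fR)
    · exact Or.inl ⟨if_pos h, h⟩
    · exact Or.inr ⟨if_neg h, h⟩
  have hXL : X49 L = EX L 0 := X49_EX L
  have hXK : X49 K = EX K 0 := X49_EX K
  unfold Criterion
  rw [hXL, hXK, hg, hcur]
  refine ⟨?_, ?_, hgcase, ⟨F, cL, hIsL, ?_, hTam, hcp, ⟨t₃, ht₃, htor₃'⟩, hexL, hval⟩, ?_⟩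
  · rw [disc_eq e hE H, heD, mul_comm]
  · have h1 := card_D e hE
    rw [heD] at h1
    exact h1.symm
  · intro s hs
    rw [← (hL₁.2 s hs).2, ← (hL₂.2 s hs).2]
  · intro hdet
    have hg0 : gd (mc π) (mr π) S ≠ 0 := by rw [hmat]; exact hdet
    obtain ⟨m1, m2⟩ := sha_four e hE hg0 hJ H hSne
    rw [gn_eq e hE hJ] at m1 m2
    obtain ⟨f1, f2⟩ := fin_pts e hE hg0 hJ H
    have hset : ∀ x : Sha (EX L 0), (∃ n : ℕ, 2 ^ n • x = 0) ↔ 2 • x = 0 := fun x =>
      ⟨fun ⟨n, hn⟩ => f2 n x hn, fun h => ⟨1, by rw [pow_one]; exact h⟩⟩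
    have hsh : shaTwo (EX L 0) = 4 ^ (S.card - gn e J) := by
      unfold shaTwo
      rw [← m2]
      exact Nat.card_congr (Equiv.subtypeEquivRight hset)
    have hfs : Finite {x : Sha (EX L 0) // ∃ n : ℕ, 2 ^ n • x = 0} := by
      apply Nat.finite_of_card_ne_zero
      have h1 : shaTwo (EX L 0) ≠ 0 := by
        rw [hsh]
        exact pow_ne_zero _ (by norm_num)
      exact h1
    have hval2 : ∀ Λ : InfinitePlace L → PeriodPair, IsPeriods (EX L 0) Λ →
        ∀ (Γ : Type) [LinearOrderedCommGroupWithZero Γ] (w : Valuation ℂ Γ), w 2 < 1 →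
          w (anOrder (EX L 0) (F 1) Λ cL) = w (shaTwo (EX L 0) : ℂ) := by
      intro Λ hΛ Γ _ w hw
      have h1 := (hval Λ hΛ Γ w hw).2.2 hdet
      have h4w : w ((4 : ℂ) ^ gn e J) ≠ 0 :=
        (Valuation.ne_zero_iff w).2 (pow_ne_zero _ (by norm_num))
      rw [map_mul, ← Nat.add_sub_cancel' m1, pow_add, map_mul] at h1
      have h2 := mul_left_cancel₀ h4w h1
      rw [h2, hsh]
      push_cast
      rfl
    have hF1 : F 1 ≠ 0 := by
      intro h0
      obtain ⟨B, hB⟩ := Pool.Agent.Y697.MQ.exists_val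
      obtain ⟨Λ, hΛ⟩ := hexL
      have h3 := hval2 Λ hΛ _ B.valuation hB
      unfold anOrder at h3
      rw [h0, zero_mul, zero_mul, zero_div, map_zero, hsh] at h3
      exact ((Valuation.ne_zero_iff B.valuation).2 (Nat.cast_ne_zero.2
        (pow_ne_zero _ (by norm_num : (4 : ℕ) ≠ 0)))) h3.symm
    exact ⟨m1, ⟨⟨fun v => all_complex (K := K) e v⟩, f1, hfs, F, cL, hIsL, hF1, hTam, hexL, hval2⟩,
      hsh, f2⟩

end main


/-! ### uniqueness -/

lemma entire_eq {F G : ℂ → ℂ} (hF : Differentiable ℂ F) (hG : Differentiable ℂ G)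
    (h : ∀ s : ℂ, 3 / 2 < s.re → F s = G s) : F = G := by
  have hF' : AnalyticOnNhd ℂ F Set.univ := fun z _ => hF.analyticAt z
  have hG' : AnalyticOnNhd ℂ G Set.univ := fun z _ => hG.analyticAt z
  have hev : F =ᶠ[nhds (2 : ℂ)] G := by
    have hopen : IsOpen {s : ℂ | 3 / 2 < s.re} := isOpen_lt continuous_const Complex.continuous_re
    filter_upwards [hopen.mem_nhds (show (2 : ℂ) ∈ {s : ℂ | 3 / 2 < s.re} by
      show (3 / 2 : ℝ) < (2 : ℂ).re
      norm_num)] with s hs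
    exact h s hs
  exact hF'.eq_of_eventuallyEq hG' hev

lemma IsL.unique {F : Type} [Field F] [NumberField F] {E : WeierstrassCurve F} {L L' : ℂ → ℂ}
    (h : IsL E L) (h' : IsL E L') : L = L' :=
  entire_eq h.1 h'.1 fun s hs => (h.2 s hs).2.trans (h'.2 s hs).2.symm

lemma IsTamagawa.unique {F : Type} [Field F] [NumberField F] {E : WeierstrassCurve F}
    {c c' : HeightOneSpectrum (𝓞 F) → ℕ} (h : IsTamagawa E c) (h' : IsTamagawa E c') : c = c' := by
  funext v
  obtain ⟨-, H, h1, h2⟩ := h.1 v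
  obtain ⟨-, H', h1', h2'⟩ := h'.1 v
  have h3 : H = H' := SetLike.ext fun P => (h1 P).trans (h1' P).symm
  rw [← h2, ← h2', h3]

/-- the exact criterion -/
lemma Criterion.exact_iff {K : Type} [Field K] [NumberField K] {a D : 𝓞 K} {S : Finset (𝓞 K)}
    {L : Type} [Field L] [NumberField L] (h : Criterion a D S L (nPlaces (7 : 𝓞 L))) :
    letI := Classical.decEq (𝓞 K)
    (Exact D L ↔ (mat a S).det ≠ 0) := by
  classical
  obtain ⟨-, hS, -, ⟨F, c, hF, -, hc, -, -, ⟨Λ, hΛ⟩, hval⟩, h5⟩ := h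
  constructor
  · rintro ⟨⟨-, -, -, F', c', hF', -, hc', -, hval'⟩, h2, h3⟩
    rw [IsL.unique hF' hF, IsTamagawa.unique hc' hc] at hval'
    obtain ⟨B, hB⟩ := Pool.Agent.Y697.MQ.exists_val
    rw [← (hval Λ hΛ _ B.valuation hB).2, map_mul, hval' Λ hΛ _ B.valuation hB, ← map_mul, h3, hS]
    congr 1
    push_cast
    rw [← pow_add, Nat.add_sub_cancel' h2]
  · intro h6
    obtain ⟨h7, h8, h9, -⟩ := h5 h6
    rw [hS] at h7 h9
    exact ⟨h8, h7, h9⟩


section density

open Filter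

variable {K : Type} [Field K] [NumberField K]

lemma not_sq {a : 𝓞 K} (ha : a ^ 2 = a - 2) (hK : Module.finrank ℚ K = 2) {D : 𝓞 K}
    (h4 : (4 : 𝓞 K) ∣ D - 1) (hDsq : Squarefree D) (h7 : ¬ (2 * a - 1) ∣ D) (hD1 : D ≠ 1) :
    ¬ IsSquare (D : K) := by
  classical
  obtain ⟨e, hea, hef⟩ := exists_e ha hK
  obtain ⟨S, hSp, hSD, hE⟩ := QD.exists_S e hea h4 hDsq h7
  have hSne : S.Nonempty := by
    rw [Finset.nonempty_iff_ne_empty]
    intro h
    apply hD1
    rw [← hSD, h, Finset.prod_empty]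
  have heD : e (∏ p ∈ S, QC.pe e p) = D := by
    rw [map_prod, ← hSD]
    exact Finset.prod_congr rfl fun p _ => e.apply_symm_apply p
  have h1 := ns_of_ne e hE hSne
  rwa [heD] at h1

lemma good_sub {a : 𝓞 K} (ha : a ^ 2 = a - 2) (hK : Module.finrank ℚ K = 2) (B X : ℕ) :
    goodSet a B X ⊆ Pool.Agent.Results.MP_e996df_nt.TwoPartTwistsX49.goodSet a X := by
  classical
  rintro D ⟨hD, hD1, h⟩
  refine ⟨hD, ?_⟩
  obtain ⟨-, hDsq, h4, h7⟩ := hD
  obtain ⟨L, _, _, _, hL, hx⟩ := exists_ext (not_sq ha hK h4 hDsq h7 hD1)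
  obtain ⟨S, hSp, hSD, hC⟩ := crit ha hK h4 hDsq h7 hD1 hL hx
  have hdet := (Criterion.exact_iff hC).1 (h L hL hx).1
  obtain ⟨S', hSp', hSD', hC'⟩ := criterion ha hK h4 hDsq h7
  have hSS : S' = S := by
    ext p
    rw [hSp, hSp']
  rw [hSS] at hC'
  exact hC'.2.2 hdet

lemma good_sup {a : 𝓞 K} (ha : a ^ 2 = a - 2) (hK : Module.finrank ℚ K = 2) (B X : ℕ) :
    Pool.Agent.Results.MP_e996df_nt.TwoPartTwistsX49.goodSet a X ⊆
      (goodSet a B X ∪ {1}) ∪ {D : 𝓞 K | Ideal.absNorm (Ideal.span {D}) ≤ X ∧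
        (Squarefree D ∧ (4 : 𝓞 K) ∣ D - 1 ∧ ¬ (2 * a - 1) ∣ D) ∧ nPlaces D < B + 2} := by
  classical
  rintro D ⟨hD, hT⟩
  have hD' := hD
  obtain ⟨hX, hDsq, h4, h7⟩ := hD
  by_cases hD1 : D = 1
  · exact Or.inl (Or.inr hD1)
  by_cases hB : nPlaces D < B + 2
  · exact Or.inr ⟨hX, ⟨hDsq, h4, h7⟩, hB⟩
  refine Or.inl (Or.inl ⟨hD', hD1, fun L _ _ _ hL hx => ?_⟩)
  obtain ⟨S, hSp, hSD, hC⟩ := crit ha hK h4 hDsq h7 hD1 hL hx
  obtain ⟨S', hSp', hSD', hC'⟩ := criterion ha hK h4 hDsq h7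
  have hSS : S' = S := by
    ext p
    rw [hSp, hSp']
  rw [hSS] at hC'
  have hE := (Criterion.exact_iff hC).2 (hC'.2.1.1 hT.noSelmer)
  refine ⟨hE, ?_⟩
  rw [hE.2.2]
  have hg : nPlaces (7 : 𝓞 L) ≤ 2 := by
    rcases hC.2.2.1 with ⟨h1, -⟩ | ⟨h1, -⟩ <;> omega
  calc B ≤ 4 ^ B := (Nat.lt_pow_self (by norm_num)).le
    _ ≤ 4 ^ (nPlaces D - nPlaces (7 : 𝓞 L)) := Nat.pow_le_pow_right (by norm_num) (by omega)

/-- **The proportion.** -/
theorem proportion {a : 𝓞 K} (ha : a ^ 2 = a - 2) (hK : Module.finrank ℚ K = 2) (B : ℕ) :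
    Tendsto (fun X : ℕ => ((goodSet a B X).ncard : ℝ) / ((family a X).ncard : ℝ)) atTop (nhds c2) ∧
      ∃ δ : ℝ, 0 < δ ∧ ∀ᶠ X : ℕ in atTop, δ * X ≤ ((goodSet a B X).ncard : ℝ) := by
  obtain ⟨e, hea, hef⟩ := exists_e ha hK
  obtain ⟨h1, -⟩ := Pool.Agent.Results.MP_e996df_nt.TwoPartTwistsX49.proportion ha hK
  obtain ⟨c, X₁, hc, hlow⟩ := QK.LOW.t_LOW
  have hfam : ∀ X : ℕ, X₁ ≤ X → c * X ≤ ((family a X).ncard : ℝ) := by
    intro X hX
    rw [Pool.Agent.Results.MP_e996df_nt.TwoPartTwistsX49.ncard_family e hef, QK.NS.card_cls]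
    exact hlow X hX
  have hfin : ∀ X : ℕ, max X₁ 1 ≤ X → (family a X).Finite := by
    intro X hX
    apply Set.finite_of_ncard_ne_zero
    intro h0
    have h2 := hfam X ((le_max_left _ _).trans hX)
    rw [h0] at h2
    have hX1 : (1 : ℝ) ≤ X := by exact_mod_cast (le_max_right _ _).trans hX
    push_cast at h2
    nlinarith
  have key : ∀ ε : ℝ, 0 < ε → ∀ᶠ X : ℕ in atTop,
      ((Pool.Agent.Results.MP_e996df_nt.TwoPartTwistsX49.goodSet a X).ncard : ℝ) -
        ((goodSet a B X).ncard : ℝ) ≤ ε * ((family a X).ncard : ℝ) ∧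
      ((goodSet a B X).ncard : ℝ) ≤
        ((Pool.Agent.Results.MP_e996df_nt.TwoPartTwistsX49.goodSet a X).ncard : ℝ) := by
    intro ε hε
    obtain ⟨X₂, hfew⟩ := few_ncard e hea hef (B + 2) (c * ε / 2) (by positivity)
    obtain ⟨X₃, hX₃⟩ := exists_nat_ge (2 / (c * ε))
    filter_upwards [eventually_ge_atTop (max X₁ 1), eventually_ge_atTop X₂,
      eventually_ge_atTop X₃] with X k1 k2 k3
    have hf := hfin X k1
    have hg0 : (Pool.Agent.Results.MP_e996df_nt.TwoPartTwistsX49.goodSet a X).Finite :=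
      hf.subset fun D hD => hD.1
    have hgB : (goodSet a B X).Finite := hf.subset fun D hD => hD.1
    set R : Set (𝓞 K) := {D : 𝓞 K | Ideal.absNorm (Ideal.span {D}) ≤ X ∧
        (Squarefree D ∧ (4 : 𝓞 K) ∣ D - 1 ∧ ¬ (2 * a - 1) ∣ D) ∧ nPlaces D < B + 2} with hR
    have hRf : R.Finite := hf.subset fun D hD => ⟨hD.1, hD.2.1⟩
    have hRc : (R.ncard : ℝ) ≤ c * ε / 2 * X := hfew X k2
    refine ⟨?_, ?_⟩
    · have h5 := Set.ncard_le_ncard (good_sup ha hK B X) ((hgB.union (Set.finite_singleton 1)).union hRf)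
      have h6 := Set.ncard_union_le (goodSet a B X ∪ {1}) R
      have h7 := Set.ncard_union_le (goodSet a B X) {(1 : 𝓞 K)}
      rw [Set.ncard_singleton] at h7
      have h8 : ((Pool.Agent.Results.MP_e996df_nt.TwoPartTwistsX49.goodSet a X).ncard : ℝ) ≤
          ((goodSet a B X).ncard : ℝ) + 1 + R.ncard := by
        exact_mod_cast (h5.trans (h6.trans (Nat.add_le_add_right h7 _)))
      have h9 := hfam X ((le_max_left _ _).trans k1)
      have h10 : (1 : ℝ) ≤ c * ε / 2 * X := by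
        have h11 : 2 / (c * ε) ≤ (X : ℝ) := hX₃.trans (by exact_mod_cast k3)
        rw [div_le_iff₀ (by positivity)] at h11
        linarith
      have h12 : ε * (c * X) ≤ ε * ((family a X).ncard : ℝ) := by gcongr
      linarith
    · exact_mod_cast Set.ncard_le_ncard (good_sub ha hK B X) hg0
  have h2 : Tendsto (fun X : ℕ => ((goodSet a B X).ncard : ℝ) / ((family a X).ncard : ℝ)) atTop
      (nhds c2) := by
    rw [Metric.tendsto_atTop] at h1 ⊢
    intro ε hε
    obtain ⟨N₁, hN₁⟩ := h1 (ε / 2) (by linarith)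
    obtain ⟨N₂, hN₂⟩ := eventually_atTop.1 (key (ε / 4) (by linarith))
    refine ⟨max N₁ (max N₂ (max X₁ 1)), fun X hX => ?_⟩
    have k1 := hN₁ X ((le_max_left _ _).trans hX)
    obtain ⟨k2, k3⟩ := hN₂ X ((le_max_left _ _).trans ((le_max_right _ _).trans hX))
    have hXX : max X₁ 1 ≤ X := (le_max_right _ _).trans ((le_max_right _ _).trans hX)
    have hpos : (0 : ℝ) < ((family a X).ncard : ℝ) := by
      have h9 := hfam X ((le_max_left _ _).trans hXX)
      have hX1 : (1 : ℝ) ≤ X := by exact_mod_cast (le_max_right _ _).trans hXX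
      nlinarith
    rw [Real.dist_eq] at k1 ⊢
    have e1 : ((goodSet a B X).ncard : ℝ) / ((family a X).ncard : ℝ) - c2 =
        (((Pool.Agent.Results.MP_e996df_nt.TwoPartTwistsX49.goodSet a X).ncard : ℝ) /
          ((family a X).ncard : ℝ) - c2) -
        (((Pool.Agent.Results.MP_e996df_nt.TwoPartTwistsX49.goodSet a X).ncard : ℝ) -
          ((goodSet a B X).ncard : ℝ)) / ((family a X).ncard : ℝ) := by
      field_simp
      ring
    have e2 : (((Pool.Agent.Results.MP_e996df_nt.TwoPartTwistsX49.goodSet a X).ncard : ℝ) -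
          ((goodSet a B X).ncard : ℝ)) / ((family a X).ncard : ℝ) ≤ ε / 4 := by
      rw [div_le_iff₀ hpos]
      exact k2
    have e3 : 0 ≤ (((Pool.Agent.Results.MP_e996df_nt.TwoPartTwistsX49.goodSet a X).ncard : ℝ) -
          ((goodSet a B X).ncard : ℝ)) / ((family a X).ncard : ℝ) :=
      div_nonneg (by linarith) hpos.le
    rw [e1]
    rw [abs_lt] at k1 ⊢
    constructor <;> linarith [k1.1, k1.2]
  refine ⟨h2, ?_⟩
  obtain ⟨-, hc0, -⟩ := QK.MOM.t_C2
  have h3 := (tendsto_order.1 h2).1 (c2 / 2) (by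
    have : 0 < c2 := hc0
    linarith)
  have hc2 : 0 < c2 := hc0
  refine ⟨c * (c2 / 2), by positivity, ?_⟩
  filter_upwards [h3, eventually_ge_atTop (max X₁ 1)] with X h4 hX
  have h9 := hfam X ((le_max_left _ _).trans hX)
  have hX1 : (1 : ℝ) ≤ X := by exact_mod_cast (le_max_right _ _).trans hX
  have hpos : (0 : ℝ) < ((family a X).ncard : ℝ) := by nlinarith
  rw [lt_div_iff₀ hpos] at h4
  nlinarith

end density

end proof

open scoped Classical in
/-- **Main theorem.** Let `K = ℚ(√-7)`, that is, a number field of degree two with an integer `a` such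
that `a² = a - 2`.
(1) Let `D ≠ 1` be a squarefree integer of `K`, congruent to `1` modulo `4` and prime to `√-7 = 2 a - 1`,
let `L` be a quadratic extension of `K` with a square root of `D`, and let `S` be the set of the prime
divisors of `D` that are congruent to `1` modulo `a²`. Then `D = ∏ p` (`p ∈ S`), the statement
`Criterion` holds for the curve `X_0(49)` over `L`, and the 2-part of the conjecture holds for this curve
over `L` with a 2-primary part of `Ш` of exactly `4 ^ (t - g)` elements if and only if the matrix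
`mat a S` is not singular; `t` is the number of the places of `K` dividing `D` and `g` is the number of
the places of `L` above `7`.
(2) For every `B`, the proportion of the `D` with this property, and with a 2-primary part of `Ш` of at
least `B` elements, among the `D` of norm at most `X` tends to `c2 = ∏_{i ≥ 1} (1 - 2^(-i))` as `X` tends
to infinity, and the number of these `D` is at least `δ X`, for a positive constant `δ`, for all large
`X`; moreover `0.288 < c2 < 0.289`. -/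
theorem result (K : Type) [Field K] [NumberField K] (a : 𝓞 K) (ha : a ^ 2 = a - 2)
    (hK : Module.finrank ℚ K = 2) :
    (∀ D : 𝓞 K, (4 : 𝓞 K) ∣ D - 1 → Squarefree D → ¬ (2 * a - 1) ∣ D → D ≠ 1 →
      ∀ (L : Type) [Field L] [NumberField L] [Algebra K L], Module.finrank K L = 2 →
        (∃ x : L, x ^ 2 = algebraMap K L (D : K)) →
          ∃ S : Finset (𝓞 K), (∀ p, p ∈ S ↔ Prime p ∧ p ∣ D ∧ a ^ 2 ∣ p - 1) ∧ ∏ p ∈ S, p = D ∧
            Criterion a D S L (nPlaces (7 : 𝓞 L)) ∧ (Exact D L ↔ (mat a S).det ≠ 0)) ∧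
    (∀ B : ℕ, Filter.Tendsto
        (fun X : ℕ => ((goodSet a B X).ncard : ℝ) / ((family a X).ncard : ℝ)) Filter.atTop (nhds c2) ∧
      ∃ δ : ℝ, 0 < δ ∧ ∀ᶠ X : ℕ in Filter.atTop, δ * X ≤ ((goodSet a B X).ncard : ℝ)) ∧
    0.288 < c2 ∧ c2 < 0.289 := by
  obtain ⟨-, -, -, h3, h4⟩ := Pool.Agent.R426.QK.MOM.t_C2
  refine ⟨fun D k1 k2 k3 k4 L _ _ _ hL hx => ?_, fun B => proportion ha hK B, h3, h4⟩
  obtain ⟨S, hS, hSD, hC⟩ := crit ha hK k1 k2 k3 k4 hL hx
  refine ⟨S, hS, hSD, hC, ?_⟩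
  have h5 := Criterion.exact_iff hC
  convert h5

end Pool.Agent.Results.MP_9ab903_nt.TwoPartX49Quadratic
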